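import Pool.Agent.N594.CT.Stm

/-!
CT/XA: the average degree of a configuration.
-/

set_option autoImplicit false

open Finset
open scoped Classical

namespace Pool.Agent.N481.CT.XA

open Pool.Agent.N594.CT

theorem main : S_XA := by
  intro V _ _ H l k ι _ _ K hU hl hk hden
  have hn : (0:ℝ) < (Fintype.card V : ℝ) := by exact_mod_cast Fintype.card_pos
  have hN : (0:ℝ) < (Fintype.card ι : ℝ) := by exact_mod_cast Fintype.card_pos
  have hkr : (1:ℝ) ≤ (k:ℝ) := by exact_mod_cast hk
  have hk0 : (0:ℝ) < (k:ℝ) := by linarith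
  obtain ⟨θ, hθ⟩ : ∃ θ : ℝ, θ = (1 - 1 / (k:ℝ)) * (Fintype.card ι : ℝ) := ⟨_, rfl⟩
  rw [← hθ] at hden
  have hk1 : 1 / (k:ℝ) ≤ 1 := by rw [div_le_one hk0]; exact hkr
  have hθ0 : 0 ≤ θ := by rw [hθ]; exact mul_nonneg (by linarith) hN.le
  have hθN : θ ≤ (Fintype.card ι : ℝ) := by
    rw [hθ]
    have : 0 ≤ 1 / (k:ℝ) := by positivity
    nlinarith
  have hnl : (0:ℝ) < (Fintype.card V : ℝ) ^ l := by positivity
  -- the pointwise bound
  have hpt : ∀ y : Fin l → V, ((univ.filter fun i : ι => H (insert (K i) (univ.image y))).card : ℝ) ≤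
      θ + (if der l H K θ (univ.image y) then (Fintype.card ι : ℝ) - θ else 0) := by
    intro y
    split_ifs with h
    · have h1 : (univ.filter fun i : ι => H (insert (K i) (univ.image y))).card ≤ Fintype.card ι :=
        card_le_univ _
      have h2 : ((univ.filter fun i : ι => H (insert (K i) (univ.image y))).card : ℝ) ≤
        (Fintype.card ι : ℝ) := by exact_mod_cast h1
      linarith
    · rw [add_zero]
      by_cases hc : (univ.image y).card = l
      · by_contra hcon
        push Not at hcon
        exact h ⟨hc, hcon⟩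
      · have h1 : (univ.image y).card ≤ l := by
          have := card_image_le (s := (univ : Finset (Fin l))) (f := y)
          rwa [card_univ, Fintype.card_fin] at this
        have h2 : (univ.filter fun i : ι => H (insert (K i) (univ.image y))) = ∅ := by
          rw [filter_eq_empty_iff]
          intro i _ hH
          have h3 := hU _ hH
          have h4 := card_insert_le (K i) (univ.image y)
          omega
        rw [h2, card_empty, Nat.cast_zero]
        exact hθ0
  -- the swap
  have hswap : ∑ i : ι, ((univ.filter fun y : Fin l → V => H (insert (K i) (univ.image y))).card : ℝ) =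
      ∑ y : Fin l → V, ((univ.filter fun i : ι => H (insert (K i) (univ.image y))).card : ℝ) := by
    simp only [card_filter]
    push_cast
    exact sum_comm
  have hsum : ∑ i : ι, dg l H (K i) = (∑ y : Fin l → V,
      ((univ.filter fun i : ι => H (insert (K i) (univ.image y))).card : ℝ)) /
      (Fintype.card V : ℝ) ^ l := by
    rw [← hswap, sum_div]
    rfl
  rw [hsum, div_le_iff₀ hnl]
  have hE : (∑ y : Fin l → V, (if der l H K θ (univ.image y) then (Fintype.card ι : ℝ) - θ else 0)) =
      (E l (der l H K θ) : ℝ) * ((Fintype.card ι : ℝ) - θ) := by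
    rw [← sum_filter, sum_const, nsmul_eq_mul]
    rfl
  have hE2 : (E l (der l H K θ) : ℝ) ≤ kap k l * (Fintype.card V : ℝ) ^ l := by
    unfold den at hden
    rwa [div_le_iff₀ hnl] at hden
  have hcard : (∑ _y : Fin l → V, θ) = (Fintype.card V : ℝ) ^ l * θ := by
    rw [sum_const, nsmul_eq_mul, card_univ, Fintype.card_fun, Fintype.card_fin]
    push_cast
    ring
  refine (sum_le_sum fun y _ => hpt y).trans ?_
  rw [sum_add_distrib, hE, hcard]
  have h1 : (E l (der l H K θ) : ℝ) * ((Fintype.card ι : ℝ) - θ) ≤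
      kap k l * (Fintype.card V : ℝ) ^ l * ((Fintype.card ι : ℝ) - θ) :=
    mul_le_mul_of_nonneg_right hE2 (by linarith)
  refine (add_le_add_right h1 _).trans (le_of_eq ?_)
  obtain ⟨m, rfl⟩ : ∃ m, l = m + 1 := ⟨l - 1, by omega⟩
  unfold kap
  rw [hθ, Nat.add_sub_cancel, Nat.add_sub_cancel, pow_succ (k:ℝ) m]
  field_simp
  ring

end Pool.Agent.N481.CT.XA
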